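import Pool.Agent.H31HS.Geo4

/-!
# Curvature operators preserving the bivectors of a three-plane

In dimension six the Gauss–Bonnet–Chern integrand need not have the sign of the Hopf conjecture for
curvature tensors of nonpositive sectional curvature (Geroch, Klembeck).

1. `InvariantPlane δ R`: dimension six, the sectional curvatures are at most `-δ` and the curvature
   operator maps the bivectors of some three-dimensional subspace `F` to bivectors of `F`, that is
   `R y y' x z = 0` for `y, y' ∈ F` and `x ∈ Fᗮ`.  Then the integrand has the sign of the Hopf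
   conjecture, with the sharp bound by its value for constant curvature `-δ`.
2. `BlockSum δ R` and `Warped δ R`, all even dimensions: `R + δ · (unit tensor)` is a sum of tensors
   `S i` of nonpositive sectional curvature living on the blocks of an orthogonal sum, minus squares
   `(x ∧ y)²` or plus Kulkarni–Nomizu products coupling the blocks; each block has dimension at most
   five, or it is the sum of two subspaces `E`, `F` of dimension at most three with
   `S i y y' x z = 0` for `y, y' ∈ F`, `x ∈ E`, or it has a subspace `F` of codimension at most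
   three (any dimension) with `S i y y' z w = 0` for `y, y' ∈ F`.
3. Integrated forms.

Proof of 1 for `δ = 0`: let `E` be a complement of `F`, `T` the pull-back to `V` of the restriction
of `R` to `F` by the projection along `E`.  As `dim F = 3`, `T` is minus a sum of squares of
decomposable forms, so `(-1)³ gbc (R + T) ≥ (-1)³ gbc R`; the function `t ↦ gbc (R + t T)` is affine,
hence `(-1)³ gbc R ≥ (-1)³ gbc (R - T)`, and the latter is a positive multiple of the double mixed
discriminant of the biquadratic form `(x, y) ↦ -R x y x y` on `E × F`.  By the Bianchi identity this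
form is symmetric in each pair of variables, so it is block-positive over the complex numbers, and
the double mixed discriminant of a block-positive `3 × 3` family is nonnegative
(`Pool.Agent.H864R3.Chern3`).
-/

set_option autoImplicit false

namespace Pool.Agent.Results.MP_5a30bb_gt.InvariantThreePlane

open Pool.Agent.W666.GB Pool.Agent.W669.HD Pool.Agent.Y519.HB Module

variable {V : Type} [NormedAddCommGroup V] [InnerProductSpace ℝ V]

/-- Dimension six; the sectional curvatures are at most `-δ`; the curvature operator preserves the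
bivectors of a three-dimensional subspace. -/
structure InvariantPlane (δ : ℝ) (R : V → V → V → V → ℝ) : Prop where
  dim : finrank ℝ V = 6
  curv : AlgCurv R
  sec : ∀ a b, R a b a b + δ * unitT a b a b ≤ 0
  plane : ∃ F : Submodule ℝ V, finrank ℝ F = 3 ∧
    ∀ y ∈ F, ∀ y' ∈ F, ∀ x ∈ Fᗮ, ∀ z, R y y' x z = 0

/-- The tensors allowed on a block `U`. -/
def Admissible (U : Submodule ℝ V) (S : V → V → V → V → ℝ) : Prop :=
  finrank ℝ U ≤ 5 ∨
  (∃ E F : Submodule ℝ V, E ⊔ F = U ∧ finrank ℝ E ≤ 3 ∧ finrank ℝ F ≤ 3 ∧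
    ∀ y ∈ F, ∀ y' ∈ F, ∀ x ∈ E, ∀ z, S y y' x z = 0) ∨
  (∃ F : Submodule ℝ V, F ≤ U ∧ finrank ℝ U ≤ finrank ℝ F + 3 ∧
    ∀ y ∈ F, ∀ y' ∈ F, ∀ z w, S y y' z w = 0)

/-- Admissible tensors of nonpositive sectional curvature on orthogonal blocks, minus squares
`(x ∧ y)²` with `x` in one block and `y` in one block, minus `δ` times the unit tensor. -/
def BlockSum (δ : ℝ) (R : V → V → V → V → ℝ) : Prop :=
  ∃ (r : ℕ) (U : Fin r → Submodule ℝ V) (S : Fin r → V → V → V → V → ℝ) (n : ℕ)
    (x y : Fin n → V) (p q : Fin n → Fin r), OrthSum U ∧ (∀ i, AlgCurv (S i)) ∧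
    (∀ i, LivesOn (U i) (S i)) ∧ (∀ i a b, S i a b a b ≤ 0) ∧ (∀ i, Admissible (U i) (S i)) ∧
    (∀ k, x k ∈ U (p k)) ∧ (∀ k, y k ∈ U (q k)) ∧
    ∀ a b c d, R a b c d = (∑ i, S i a b c d) - (∑ k, sqDec (x k) (y k) a b c d) -
      δ * unitT a b c d

/-- Tensors of multiply warped type with sectional curvatures at most `-δ`: an admissible tensor on
each block and one Kulkarni–Nomizu product `h ∧ k` for each pair of blocks. -/
def Warped (δ : ℝ) (R : V → V → V → V → ℝ) : Prop :=
  ∃ (r : ℕ) (U : Fin r → Submodule ℝ V) (S : Fin r → V → V → V → V → ℝ)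
    (h k : Fin r → Fin r → V → V → ℝ), OrthSum U ∧
    (∀ i, Admissible (U i) (S i)) ∧
    (∀ i, AlgCurv (S i)) ∧ (∀ i, LivesOn (U i) (S i)) ∧
    (∀ i j, SymForm (U i) (h i j)) ∧ (∀ i j, SymForm (U j) (k i j)) ∧
    (∀ a b c d, R a b c d + δ * unitT a b c d = (∑ i, S i a b c d) +
      ∑ i, ∑ j, if i < j then kn (h i j) (k i j) a b c d else 0) ∧
    ∀ a b, R a b a b + δ * unitT a b a b ≤ 0

theorem admissible_hopf [FiniteDimensional ℝ V] {U : Submodule ℝ V} {S : V → V → V → V → ℝ}
    (hS : AlgCurv S) (hs : ∀ a b, S a b a b ≤ 0) (hL : LivesOn U S) (h : Admissible U S) :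
    HopfOn U S := by
  rcases h with h | ⟨E, F, hU, hE, hF, h⟩ | ⟨F, hFU, hd, h⟩
  · exact hopf_twoFive (twoFive_one hS h hL hs) U
  · exact Pool.Agent.H31HS.hopf_six hS hs hU hE hF h
  · exact Pool.Agent.H31HS.hopf_null hS hs hFU hd h

theorem block_hopf [FiniteDimensional ℝ V] {δ : ℝ} {R : V → V → V → V → ℝ}
    (h : BlockSum δ R) : HopfBlocks δ R := by
  obtain ⟨r, U, S, n, x, y, p, q, hO, hS, hL, hs, hA, hx, hy, hR⟩ := h
  exact ⟨r, U, S, n, x, y, p, q, hO, hS, hL,
    fun i => admissible_hopf (hS i) (hs i) (hL i) (hA i), hx, hy, hR⟩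

theorem warped_warp [FiniteDimensional ℝ V] {δ : ℝ} {R : V → V → V → V → ℝ}
    (h : Warped δ R) : WarpType δ R := by
  obtain ⟨r, U, S, h, k, hO, hA, hS, hL, hh, hk, hR, hK⟩ := h
  have hs := Pool.Agent.H31HS.warp_sec hO hS hL hh hk hR hK
  exact ⟨r, U, S, h, k, hO, fun i => Or.inr (admissible_hopf (hS i) (hs i) (hL i) (hA i)), hS, hL,
    hh, hk, hR, hK⟩

theorem invariant_block {δ : ℝ} {R : V → V → V → V → ℝ} (h : InvariantPlane δ R) :
    BlockSum δ R := by
  obtain ⟨hd, hc, hs, F, hF, hR⟩ := h
  have hfin : FiniteDimensional ℝ V := FiniteDimensional.of_finrank_pos (by omega)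
  have h1 := Submodule.finrank_add_finrank_orthogonal F
  have hcurv : AlgCurv (fun a b c d => R a b c d + δ * unitT a b c d) := by
    have h2 := Pool.Agent.H31HS.add_curv' hc (unit_curv (V := V) 1) δ
    have h3 : (fun a b c d => R a b c d + δ * (1 * unitT a b c d)) =
        fun a b c d => R a b c d + δ * unitT a b c d := by
      funext a b c d
      ring
    rwa [h3] at h2
  refine ⟨1, fun _ => ⊤, fun _ a b c d => R a b c d + δ * unitT a b c d, 0, Fin.elim0, Fin.elim0,
    Fin.elim0, Fin.elim0, ⟨?_, by simp⟩, fun _ => hcurv, ?_, fun _ => hs, fun _ => ?_,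
    fun k => k.elim0, fun k => k.elim0, ?_⟩
  · intro i j hij
    exact absurd (Subsingleton.elim i j) hij
  · intro i a ha y z w
    rw [Submodule.top_orthogonal_eq_bot, Submodule.mem_bot] at ha
    rw [ha]
    have := hcurv.smul 0 0 y z w
    simpa using this
  · refine Or.inr (Or.inl ⟨Fᗮ, F, ?_, by omega, by omega, ?_⟩)
    · rw [sup_comm]
      exact Submodule.sup_orthogonal_of_hasOrthogonalProjection
    · intro y hy y' hy' x hx z
      have e1 : inner ℝ y x = 0 := (Submodule.mem_orthogonal F x).1 hx y hy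
      have e2 : inner ℝ y' x = 0 := (Submodule.mem_orthogonal F x).1 hx y' hy'
      simp only [hR y hy y' hy' x hx z, unitT, e1, e2]
      ring
  · intro a b c d
    simp

/-- **The Hopf sign for curvature operators preserving the bivectors of a three-plane, and for
blocks and warped types built from them.** -/
theorem result :
    -- pointwise, with the value for constant curvature `-δ`
    (∀ (m : ℕ) (V : Type) [NormedAddCommGroup V] [InnerProductSpace ℝ V]
      (e : OrthonormalBasis (Fin m × Bool) ℝ V) (R : V → V → V → V → ℝ) (δ : ℝ),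
      0 ≤ δ → InvariantPlane δ R ∨ BlockSum δ R ∨ Warped δ R →
        roundGB m δ ≤ (-1) ^ m * gbc e R) ∧
    -- the integral
    (∀ (m : ℕ) (M : Type) [MeasurableSpace M] (μ : MeasureTheory.Measure M) (K : CurvField m M),
      (∀ p, InvariantPlane 0 (K.R p) ∨ BlockSum 0 (K.R p) ∨ Warped 0 (K.R p)) →
        0 ≤ (-1) ^ m * ∫ p, K.gb p ∂μ) ∧
    (∀ (m : ℕ) (M : Type) [MeasurableSpace M] (μ : MeasureTheory.Measure M)
      [MeasureTheory.IsFiniteMeasure μ] (K : CurvField m M) (δ : ℝ),
      MeasureTheory.Integrable K.gb μ → 0 ≤ δ →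
      (∀ p, InvariantPlane δ (K.R p) ∨ BlockSum δ (K.R p) ∨ Warped δ (K.R p)) →
        roundGB m δ * μ.real Set.univ ≤ (-1) ^ m * ∫ p, K.gb p ∂μ) := by
  have key : ∀ (m : ℕ) (V : Type) [NormedAddCommGroup V] [InnerProductSpace ℝ V]
      (_ : OrthonormalBasis (Fin m × Bool) ℝ V) (R : V → V → V → V → ℝ) (δ : ℝ),
      InvariantPlane δ R ∨ BlockSum δ R ∨ Warped δ R →
        HopfBlocks δ R ∨ FiveBlocks δ R ∨ WarpType δ R := by
    intro m V _ _ e R δ h
    have hfin : FiniteDimensional ℝ V := Module.Finite.of_basis e.toBasis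
    rcases h with h | h | h
    · exact Or.inl (block_hopf (invariant_block h))
    · exact Or.inl (block_hopf h)
    · exact Or.inr (Or.inr (warped_warp h))
  exact ⟨fun m V _ _ e R δ hδ h => cls_bound e hδ (key m V e R δ h),
    fun m M _ μ K h => field_cls μ K fun p => key m (K.V p) (K.e p) (K.R p) 0 (h p),
    fun m M _ μ _ K δ hi hδ h => field_clsδ μ K hi hδ fun p =>
      key m (K.V p) (K.e p) (K.R p) δ (h p)⟩

end Pool.Agent.Results.MP_5a30bb_gt.InvariantThreePlane
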