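import Pool.Agent.H36QD.Int

/-!
# The Hopf sign for curvature tensors of quaternionic type

Notation (`Pool/Agent/H36QD/`): `kn b` is the tensor `b(x,z) b(y,w) - b(x,w) b(y,z)` of a bilinear
form `b`; `one4` is the tensor of constant curvature one; `om4 J` is the tensor
`2 ω(x,y) ω(z,w) + ω(x,z) ω(y,w) - ω(x,w) ω(y,z)` of `ω(x,y) = ⟨J x, y⟩`; `val K J s x y` is the value
of the quadratic form of `K` on the bivector `∑ (x_a ∧ y_a + s J x_a ∧ J y_a)`; `cmat e b d` is the
complex matrix of `b + i d` in the basis `e` and `CNondeg b d` says that `b + i d` is nondegenerate.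

Let `J` be a complex structure on the Euclidean space `V` of dimension `2 m`, not necessarily
orthogonal, and `R = - ∑ kn B_k + ∑ kn D_k` with bilinear forms `B_k` invariant and `D_k`
anti-invariant under `J`. The matrices of `∑ ζ_k B_k + i ∑ ξ_k D_k` (`ζ`, `ξ` real) are quaternionic,
so that their determinants are real and nonnegative, and `(-1)^m` times the Gauss–Bonnet–Chern
integrand of `R` is a Gaussian mean of these determinants.

(1) The sign, the exact condition for strictness, and the lower bound `m! / (2π)^m` times the largest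
of these determinants over the unit sphere of the `(ζ, ξ)`. (The mean of a nonnegative form of degree
`2 m` is at least `m!` times its maximum on the sphere.)

(2) The criterion `HermBound c R`: for some orthogonal complex structure `J` the curvature tensor `R`
is `J`-invariant, `R(Jx,Jy,Jz,Jw) = R(x,y,z,w)`, and for some `J`-invariant symmetric forms `G_k` and
`J`-anti-invariant symmetric forms `H_k`, with `Q = - c - ∑ kn G_k + ∑ kn H_k`, the curvature
operators satisfy `R ≤ Q` on the `J`-invariant bivectors and `R ≥ Q` on the `J`-anti-invariant ones.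
Then `(-1)^m` times the integrand is at least `m! (c / 2π)^m`.

(3), (4) The integrated forms.

(5) The criterion holds with `c = a` for `R = R' - a - b om4 J`, where `a`, `b` are nonnegative and `R'`
is a Kähler curvature tensor with nonpositive curvature operator.
-/

set_option autoImplicit false

namespace Pool.Agent.Results.MP_5a30bb_gt.QuaternionicDeterminants

open Pool.Agent.W666.GB Pool.Agent.H36QD MeasureTheory

/-- The pointwise theorem for `R = - ∑ kn B_k + ∑ kn D_k`. -/
def Pointwise : Prop :=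
  ∀ (m : ℕ) (V : Type) [NormedAddCommGroup V] [InnerProductSpace ℝ V]
    (e : OrthonormalBasis (Fin m × Bool) ℝ V) (J : V →ₗ[ℝ] V) (ι κ : Type) [Fintype ι]
    [Fintype κ] (B : ι → Bil V) (D : κ → Bil V) (R : V → V → V → V → ℝ),
    (∀ x, J (J x) = -x) → (∀ k x y, B k (J x) (J y) = B k x y) →
    (∀ k x y, D k (J x) (J y) = - D k x y) →
    (∀ x y z w, R x y z w = ∑ k, kn (D k) x y z w - ∑ k, kn (B k) x y z w) →
    0 ≤ (-1) ^ m * gbc e R ∧
    (0 < (-1) ^ m * gbc e R ↔
      ∃ (ζ : ι → ℝ) (ξ : κ → ℝ), CNondeg (∑ k, ζ k • B k) (∑ k, ξ k • D k)) ∧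
    (∀ (ζ : ι → ℝ) (ξ : κ → ℝ), ∑ k, ζ k ^ 2 + ∑ k, ξ k ^ 2 = 1 →
      ∃ r : ℝ, 0 ≤ r ∧ (cmat e (∑ k, ζ k • B k) (∑ k, ξ k • D k)).det = r ∧
        (m.factorial : ℝ) / (2 * Real.pi) ^ m * r ≤ (-1) ^ m * gbc e R)

/-- The criterion for the curvature operator. -/
def Criterion : Prop :=
  ∀ (m : ℕ) (V : Type) [NormedAddCommGroup V] [InnerProductSpace ℝ V]
    (e : OrthonormalBasis (Fin m × Bool) ℝ V) (R : V → V → V → V → ℝ) (c : ℝ),
    AlgCurv R → 0 ≤ c → HermBound c R →
      QuatType R ∧ (m.factorial : ℝ) * (c / (2 * Real.pi)) ^ m ≤ (-1) ^ m * gbc e R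

/-- The sign of the integral. -/
def IntegralSign : Prop :=
  ∀ (m : ℕ) (M : Type) [MeasurableSpace M] (μ : Measure M) (K : CurvField m M),
    (∀ p, QuatType (K.R p)) → 0 ≤ (-1) ^ m * ∫ p, K.gb p ∂μ

/-- The lower bound for the integral. -/
def IntegralBound : Prop :=
  ∀ (m : ℕ) (M : Type) [MeasurableSpace M] (μ : Measure M) (K : CurvField m M) (c : M → ℝ),
    (∀ p, 0 ≤ c p ∧ HermBound (c p) (K.R p)) →
    0 ≤ (-1) ^ m * ∫ p, K.gb p ∂μ ∧
    (Integrable K.gb μ → Integrable (fun p => c p ^ m) μ →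
      ∫ p, (m.factorial : ℝ) * (c p / (2 * Real.pi)) ^ m ∂μ ≤ (-1) ^ m * ∫ p, K.gb p ∂μ)

/-- Examples of the criterion. -/
def Examples : Prop :=
  ∀ (m : ℕ) (V : Type) [NormedAddCommGroup V] [InnerProductSpace ℝ V]
    (_ : OrthonormalBasis (Fin m × Bool) ℝ V) (J : V →ₗ[ℝ] V) (R' : V → V → V → V → ℝ)
    (a b : ℝ), (∀ x, J (J x) = -x) → (∀ x y, inner ℝ (J x) (J y) = (inner ℝ x y : ℝ)) →
    AlgCurv R' → (∀ x y z w, R' (J x) (J y) z w = R' x y z w) →
    (∀ (n : ℕ) (x y : Fin n → V), ∑ a, ∑ b, R' (x a) (y a) (x b) (y b) ≤ 0) → 0 ≤ a → 0 ≤ b →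
      HermBound a (fun x y z w => R' x y z w - a * one4 x y z w - b * om4 J x y z w)

/-- **The Hopf sign for curvature tensors of quaternionic type.** -/
theorem result : Pointwise ∧ Criterion ∧ IntegralSign ∧ IntegralBound ∧ Examples :=
  ⟨fun _ _ _ _ e J _ _ _ _ B D R hJ hB hD hR => quat_all e J B D R hJ hB hD hR,
    fun _ _ _ _ e _ _ hR hc h => ⟨herm_quatType e hR hc h, herm_bound e hR hc h⟩,
    fun _ _ _ μ K h => field_quat μ K h,
    fun _ _ _ μ K c h => field_herm μ K c h,
    fun _ _ _ _ e _ _ _ _ hJ hJo hR hK hn _ hb => kaehler_example e hJ hJo hR hK hn hb⟩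

end Pool.Agent.Results.MP_5a30bb_gt.QuaternionicDeterminants
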