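import Pool.Agent.H31HS.Geo6

/-!
# Curvature tensors invariant under a reflection or under a complex structure

Dimension six.  The hypotheses on the curvature tensor `R` at a point:

* `ReflectionType R`: `V = E ⊕ F`, `dim E = dim F = 3` (not necessarily orthogonal), `R` is invariant
  under the reflection `1 ⊕ (-1)`, it is nonpositive on the bivectors `x ∧ x' + y ∧ y'` and on the
  complex bivectors `z ∧ w`, for `x, x' ∈ E`, `y, y' ∈ F`, `z = x + i x'`, `w = y + i y'`.
* `ComplexType R`: `J² = -1` (`J` not necessarily orthogonal), `R` is `J`-invariant, it is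
  nonpositive on the `J`-anti-invariant bivectors (all are of the form `x ∧ y - J x ∧ J y`) and on
  the complex bivectors `Z ∧ conj W`, `Z, W` of type `(1, 0)` (the analogue of nonpositive bisectional
  curvature: if `R (J x) (J y) z w = R x y z w`, as on Kähler manifolds, then the first condition is
  void and the second one says `R x (J x) y (J y) ≤ 0`).

1. Then the Gauss–Bonnet–Chern integrand has the sign of the Hopf conjecture.  Nothing is assumed
   on the sectional curvature.
2. All even dimensions: tensors of these types with nonpositive sectional curvature on six-dimensional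
   blocks, tensors of nonpositive sectional curvature on blocks of dimension at most five, minus
   squares coupling the blocks, minus `δ · (unit tensor)`: `(-1)^m` times the integrand is at least
   its value for constant curvature `-δ`.
3. Integrated forms.

Proof of 1: the complexification splits into two eigenspaces `V₁ ⊕ V₂` of dimension three, and `-R`
is block diagonal for `Λ² = (Λ² V₁ ⊕ Λ² V₂) ⊕ V₁ ⊗ V₂`, with blocks `M ≥ 0` and `B` nonnegative on
tensors of rank one.  The integrand is a positive multiple of `Φ(B) + W(M, M, B)`, where `Φ` is the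
double mixed discriminant, nonnegative by `Pool.Agent.H864R3.Chern3`, and `W(M, M, B) ≥ 0` by an
average over phases: if `M = ∑ m_k m_k*` then `W = ½ ∑_{k,l} B (m_k ⊙ m_l)`.
-/

set_option autoImplicit false

namespace Pool.Agent.Results.MP_5a30bb_gt.ReflectionComplex

open Pool.Agent.W666.GB Pool.Agent.W669.HD Pool.Agent.Y519.HB Module

variable {V : Type} [NormedAddCommGroup V] [InnerProductSpace ℝ V]

/-- Invariant under the reflection of `V = E ⊕ F`, nonpositive on `x ∧ x' + y ∧ y'` and on
`(x + i x') ∧ (y + i y')`. -/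
def ReflectionType (R : V → V → V → V → ℝ) : Prop :=
  ∃ E F : Submodule ℝ V, finrank ℝ E = 3 ∧ finrank ℝ F = 3 ∧ IsCompl E F ∧
    (∀ x ∈ E, ∀ x' ∈ E, ∀ x'' ∈ E, ∀ y ∈ F, R x x' x'' y = 0) ∧
    (∀ y ∈ F, ∀ y' ∈ F, ∀ y'' ∈ F, ∀ x ∈ E, R y y' y'' x = 0) ∧
    (∀ x ∈ E, ∀ x' ∈ E, ∀ y ∈ F, ∀ y' ∈ F,
      R x x' x x' + 2 * R x x' y y' + R y y' y y' ≤ 0) ∧
    (∀ x ∈ E, ∀ x' ∈ E, ∀ y ∈ F, ∀ y' ∈ F, R x y x y + R x' y' x' y' + R x y' x y' +
      R x' y x' y - 2 * R x y x' y' + 2 * R x y' x' y ≤ 0)

/-- Invariant under a complex structure, nonpositive on `x ∧ y - J x ∧ J y` and on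
`Z ∧ conj W` for `Z, W` of type `(1, 0)`. -/
def ComplexType (R : V → V → V → V → ℝ) : Prop :=
  finrank ℝ V = 6 ∧ ∃ J : V →ₗ[ℝ] V, (∀ x, J (J x) = -x) ∧
    (∀ x y z w, R (J x) (J y) (J z) (J w) = R x y z w) ∧
    (∀ x y, R x y x y ≤ R x y (J x) (J y)) ∧
    (∀ x y, R x y x y + R x (J y) x (J y) + R x (J x) y (J y) ≤ 0)

/-- The tensors allowed on a block `U`. -/
def Admissible (U : Submodule ℝ V) (S : V → V → V → V → ℝ) : Prop :=
  finrank ℝ U ≤ 5 ∨ ReflectionType (fun x y z w : U => S x y z w) ∨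
    ComplexType (fun x y z w : U => S x y z w)

/-- Admissible tensors of nonpositive sectional curvature on orthogonal blocks, minus squares
`(x ∧ y)²` with `x` in one block and `y` in one block, minus `δ` times the unit tensor. -/
def BlockSum (δ : ℝ) (R : V → V → V → V → ℝ) : Prop :=
  ∃ (r : ℕ) (U : Fin r → Submodule ℝ V) (S : Fin r → V → V → V → V → ℝ) (n : ℕ)
    (x y : Fin n → V) (p q : Fin n → Fin r), OrthSum U ∧ (∀ i, AlgCurv (S i)) ∧
    (∀ i, LivesOn (U i) (S i)) ∧ (∀ i a b, S i a b a b ≤ 0) ∧ (∀ i, Admissible (U i) (S i)) ∧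
    (∀ k, x k ∈ U (p k)) ∧ (∀ k, y k ∈ U (q k)) ∧
    ∀ a b c d, R a b c d = (∑ i, S i a b c d) - (∑ k, sqDec (x k) (y k) a b c d) -
      δ * unitT a b c d

theorem six {R : V → V → V → V → ℝ} (e : OrthonormalBasis (Fin 3 × Bool) ℝ V) (hR : AlgCurv R)
    (h : ReflectionType R ∨ ComplexType R) : 0 ≤ - gbc e R := by
  rcases h with ⟨E, F, hE, hF, hEF, h1, h2, ha, hb⟩ | ⟨-, J, hJ, hinv, ha, hb⟩
  · exact Pool.Agent.H31HS.refl_six e hR E F hE hF hEF h1 h2 ha hb
  · exact Pool.Agent.H31HS.J_six e hR J hJ hinv ha hb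

theorem type_dim {R : V → V → V → V → ℝ} (h : ReflectionType R ∨ ComplexType R) :
    finrank ℝ V = 6 := by
  rcases h with ⟨E, F, hE, hF, hEF, -⟩ | ⟨h, -⟩
  · have : FiniteDimensional ℝ E := FiniteDimensional.of_finrank_pos (by omega)
    have : FiniteDimensional ℝ F := FiniteDimensional.of_finrank_pos (by omega)
    rw [← LinearEquiv.finrank_eq (Submodule.prodEquivOfIsCompl E F hEF), finrank_prod, hE, hF]
  · exact h

theorem admissible_hopf [FiniteDimensional ℝ V] {U : Submodule ℝ V} {S : V → V → V → V → ℝ}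
    (hS : AlgCurv S) (hs : ∀ a b, S a b a b ≤ 0) (hL : LivesOn U S) (h : Admissible U S) :
    HopfOn U S := by
  rcases h with h | h
  · exact hopf_twoFive (twoFive_one hS h hL hs) U
  · intro k E hE ε
    rcases Nat.lt_or_ge k 3 with hk | hk
    · exact Pool.Agent.H31HS.hopf_small hS hs hk E ε
    have hE2 := Pool.Agent.H31HS.finrank_ob ε
    have hU := type_dim h
    have h2 := Submodule.finrank_mono hE
    obtain rfl : k = 3 := by omega
    obtain rfl : E = U := Submodule.eq_of_le_of_finrank_eq hE (by omega)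
    have h3 := six ε (restrict_curv hS E) h
    linarith

theorem block_hopf [FiniteDimensional ℝ V] {δ : ℝ} {R : V → V → V → V → ℝ}
    (h : BlockSum δ R) : HopfBlocks δ R := by
  obtain ⟨r, U, S, n, x, y, p, q, hO, hS, hL, hs, hA, hx, hy, hR⟩ := h
  exact ⟨r, U, S, n, x, y, p, q, hO, hS, hL,
    fun i => admissible_hopf (hS i) (hs i) (hL i) (hA i), hx, hy, hR⟩

/-- **The Hopf sign for curvature tensors invariant under a reflection or a complex structure.** -/
theorem result :
    -- dimension six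
    (∀ (V : Type) [NormedAddCommGroup V] [InnerProductSpace ℝ V]
      (e : OrthonormalBasis (Fin 3 × Bool) ℝ V) (R : V → V → V → V → ℝ), AlgCurv R →
      ReflectionType R ∨ ComplexType R → 0 ≤ (-1) ^ 3 * gbc e R) ∧
    -- all even dimensions, with the value for constant curvature `-δ`
    (∀ (m : ℕ) (V : Type) [NormedAddCommGroup V] [InnerProductSpace ℝ V]
      (e : OrthonormalBasis (Fin m × Bool) ℝ V) (R : V → V → V → V → ℝ) (δ : ℝ),
      0 ≤ δ → BlockSum δ R → roundGB m δ ≤ (-1) ^ m * gbc e R) ∧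
    -- the integrals
    (∀ (M : Type) [MeasurableSpace M] (μ : MeasureTheory.Measure M) (K : CurvField 3 M),
      (∀ p, ReflectionType (K.R p) ∨ ComplexType (K.R p)) → 0 ≤ (-1) ^ 3 * ∫ p, K.gb p ∂μ) ∧
    (∀ (m : ℕ) (M : Type) [MeasurableSpace M] (μ : MeasureTheory.Measure M)
      [MeasureTheory.IsFiniteMeasure μ] (K : CurvField m M) (δ : ℝ),
      MeasureTheory.Integrable K.gb μ → 0 ≤ δ → (∀ p, BlockSum δ (K.R p)) →
        roundGB m δ * μ.real Set.univ ≤ (-1) ^ m * ∫ p, K.gb p ∂μ) := by
  refine ⟨fun V _ _ e R hR h => ?_, fun m V _ _ e R δ hδ h => ?_, fun M _ μ K h => ?_,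
    fun m M _ μ _ K δ hi hδ h => ?_⟩
  · have := six e hR h
    linarith
  · have hfin : FiniteDimensional ℝ V := Module.Finite.of_basis e.toBasis
    exact cls_bound e hδ (Or.inl (block_hopf h))
  · rw [← MeasureTheory.integral_const_mul]
    refine MeasureTheory.integral_nonneg fun p => ?_
    have := six (K.e p) (K.curv p) (h p)
    have e1 : (-1 : ℝ) ^ 3 * K.gb p = - gbc (K.e p) (K.R p) := by
      unfold CurvField.gb
      ring
    simp only [Pi.zero_apply, e1]
    exact this
  · refine field_clsδ μ K hi hδ fun p => Or.inl ?_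
    have hfin : FiniteDimensional ℝ (K.V p) := Module.Finite.of_basis (K.e p).toBasis
    exact block_hopf (h p)

end Pool.Agent.Results.MP_5a30bb_gt.ReflectionComplex
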