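import Pool.Agent.H53HC.Geo5

/-!
# The Hopf sign for nonpositive curvature operators of the second kind and causal tensors,
in all even dimensions

`SecondNonneg e S`: the quadratic form `∑ S(e_i, e_k, e_l, e_j) h_{ij} h_{kl}` of the curvature
operator of the second kind is nonnegative on some hyperplane of the space of symmetric matrices
(for instance on the symmetric matrices of trace zero).

`Causal S`: `S` is the real part of `A ∧ N - ∑ h_k ∧ h_k` (Kulkarni–Nomizu products) for Hermitian
forms `A ≥ 0`, `N ≥ 0`, `h_k` on the complexification with `∑ h_k(u,u)² ≤ A(u,u) N(u,u)`.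

`CauSkew S`: `S` is a sum of causal tensors and of tensors `K(x,z) K(y,t) - K(x,t) K(y,z)` with `K`
alternating.

`Cone e S`: `S` is a sum of a `CauSkew` tensor, of a curvature tensor with nonnegative curvature
operator and of curvature tensors with `SecondNonneg`.

(1) If `R = -S - δ · (unit tensor)` is a curvature tensor in dimension `2 m` and `S` is in the cone,
then `(-1)^m` times the Gauss–Bonnet–Chern integrand of `R` is at least its value for constant
curvature `-δ`. (2), (3) Integrated forms. (4) Submanifolds of any codimension with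
`|II(x,x)|² ≤ (c - δ) |x|⁴` of spaces with curvature tensor `-S - c · (unit tensor)`.
-/

set_option autoImplicit false

namespace Pool.Agent.Results.MP_5a30bb_gt.SecondKindAllDimensions

open Pool.Agent.W666.GB Pool.Agent.W669.HD Pool.Agent.N565.LZ Pool.Agent.H53HC

/-- Sums of a `CauSkew` tensor, of a curvature tensor with nonnegative curvature operator, and of
curvature tensors whose operators of the second kind are nonnegative on a hyperplane. -/
def Cone {ι V : Type} [Fintype ι] [NormedAddCommGroup V] [InnerProductSpace ℝ V]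
    (e : OrthonormalBasis ι ℝ V) (S : V → V → V → V → ℝ) : Prop :=
  ∃ (T S₁ : V → V → V → V → ℝ) (r : ℕ) (S₂ : Fin r → V → V → V → V → ℝ), CauSkew T ∧
    AlgCurv S₁ ∧ OpNonneg S₁ ∧ (∀ i, AlgCurv (S₂ i)) ∧ (∀ i, SecondNonneg e (S₂ i)) ∧
    ∀ x y z t, S x y z t = T x y z t + S₁ x y z t + ∑ i, S₂ i x y z t

theorem Cone.cauSkew {ι V : Type} [Fintype ι] [DecidableEq ι] [NormedAddCommGroup V]
    [InnerProductSpace ℝ V] {e : OrthonormalBasis ι ℝ V} {S : V → V → V → V → ℝ}
    (h : Cone e S) : CauSkew S := by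
  obtain ⟨T, S₁, r, S₂, hT, h1, h1', h2, h2', hS⟩ := h
  have h3 := (hT.add (cauSkew_of_op e h1 h1')).add
    (CauSkew.sum fun i => (causal_of_second e (h2 i) (h2' i)).cauSkew)
  have h4 : S = fun x y z t => T x y z t + S₁ x y z t + ∑ i, S₂ i x y z t := by
    funext x y z t
    exact hS x y z t
  rw [h4]
  exact h3

/-- The pointwise bound. -/
def Pointwise : Prop :=
  ∀ (m : ℕ) (V : Type) [NormedAddCommGroup V] [InnerProductSpace ℝ V]
    (e : OrthonormalBasis (Fin m × Bool) ℝ V) (R S : V → V → V → V → ℝ) (δ : ℝ),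
    AlgCurv R → 0 ≤ δ → Cone e S → (∀ x y z t, R x y z t = - S x y z t - δ * unitT x y z t) →
      roundGB m δ ≤ (-1) ^ m * gbc e R

/-- The sign of the integral. -/
def IntegralSign : Prop :=
  ∀ (m : ℕ) (M : Type) [MeasurableSpace M] (μ : MeasureTheory.Measure M) (K : CurvField m M),
    (∀ p, ∃ S, Cone (K.e p) S ∧ ∀ x y z t, K.R p x y z t = - S x y z t) →
      0 ≤ (-1) ^ m * ∫ p, K.gb p ∂μ

/-- The lower bound for the integral. -/
def IntegralBound : Prop :=
  ∀ (m : ℕ) (M : Type) [MeasurableSpace M] (μ : MeasureTheory.Measure M)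
    [MeasureTheory.IsFiniteMeasure μ] (K : CurvField m M) (δ : ℝ),
    MeasureTheory.Integrable K.gb μ → 0 ≤ δ →
      (∀ p, ∃ S, Cone (K.e p) S ∧
        ∀ x y z t, K.R p x y z t = - S x y z t - δ * unitT x y z t) →
      roundGB m δ * μ.real Set.univ ≤ (-1) ^ m * ∫ p, K.gb p ∂μ

/-- Submanifolds; `W` is the normal space, `β` the second fundamental form, and
`-S - c · (unit tensor)` the curvature tensor of the ambient space, restricted to the tangent
space `V`. -/
def Submanifolds : Prop :=
  ∀ (m : ℕ) (V W : Type) [NormedAddCommGroup V] [InnerProductSpace ℝ V]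
    [NormedAddCommGroup W] [InnerProductSpace ℝ W] [FiniteDimensional ℝ W]
    (e : OrthonormalBasis (Fin m × Bool) ℝ V) (β : V → V → W) (S : V → V → V → V → ℝ) (c δ : ℝ),
    SecForm β → AlgCurv S → Cone e S → 0 ≤ δ → δ ≤ c →
    (∀ x, ‖β x x‖ ^ 2 ≤ (c - δ) * ‖x‖ ^ 4) →
    roundGB m δ ≤ (-1) ^ m * gbc e (fun x y z t => - S x y z t - c * unitT x y z t +
      (inner ℝ (β x z) (β y t) - inner ℝ (β x t) (β y z)))

theorem result : Pointwise ∧ IntegralSign ∧ IntegralBound ∧ Submanifolds :=
  ⟨fun _ _ _ _ e _ _ _ hc hδ hS hR => hS.cauSkew.bound hc e hδ hR,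
    fun _ _ _ μ K h => field_sign μ K fun p => by
      obtain ⟨S, hS, hR⟩ := h p
      exact ⟨S, hS.cauSkew, hR⟩,
    fun _ _ _ μ _ K _ hi hδ h => field_bound μ K hi hδ fun p => by
      obtain ⟨S, hS, hR⟩ := h p
      exact ⟨S, hS.cauSkew, hR⟩,
    fun _ _ _ _ _ _ _ _ e _ _ _ _ hs hS hC hδ hc hβ => sub_bound e hs hS hC.cauSkew hδ hc hβ⟩

end Pool.Agent.Results.MP_5a30bb_gt.SecondKindAllDimensions
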